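import Pool.Agent.Lib.P77fd2d.Final

/-!
The double coset membership problem `w ∈ P_i ⟨Y⟩` is decidable, by one algorithm, for all finite
decorated group presentations of groups hyperbolic relative to finitely generated abelian subgroups
and all relatively quasi-convex subgroups `⟨Y⟩`.

From the library file `Stmt`: `Word = List (ℕ × Bool)`, where `(k, true)` is the letter `x_k` and
`(k, false)` the letter `x_k⁻¹`; `Pres = ℕ × List Word` (number of generators, relators);
`fr n w` is the element of the free group on `n` generators represented by `w` (letters `x_k` with `k ≥ n` are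
ignored); `Grp P` is the presented group; `elt P w` is its element represented by `w`; `sg P Y` is the
subgroup generated by the elements represented by the words of the list `Y`.

From the library file `Basic`, for a group `G` with a set `S.A` and subgroups `S.P i`: letters are `(none, a)`,
`a ∈ S.A`, and `(some i, p)`, `p ∈ S.P i` (words over these letters: `S.Ok w`, value `ev w`);
`S.rl g` is the least length of a word with value `g` (distance from `1` to `g` in the relative Cayley
graph), `S.wl g` is the word length with respect to `S.A`; `S.Geo w`: `w` labels a geodesic;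
`S.NoE i g w`: the path starting at `g` with label `w` has no edge labelled by `S.P i` inside the
coset `S.P i`.
-/

namespace Pool.Agent.Results.MP_77fd2d_al.Decidable

open Pool.Agent.Lib.P77fd2d

/-- A finite decorated group presentation: the presentation `⟨A | R⟩` and, for each index
`i < length`, a finite presentation `⟨X_i | S_i⟩` with the list of the words `f_i(x)`, `x ∈ X_i`. -/
abbrev Deco := Pres × List (Pres × List Word)

/-- the group `π` -/
abbrev Gp (D : Deco) : Type := Grp D.1

/-- the index set -/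
abbrev Ix (D : Deco) : Type := Fin D.2.length

/-- the subgroup `P_i = ⟨f_i(X_i)⟩` of `π` -/
def Per (D : Deco) (i : Ix D) : Subgroup (Gp D) := sg D.1 (D.2.get i).2

/-- every `f_i` induces an isomorphism of `⟨X_i | S_i⟩` onto `P_i` (an injective homomorphism to `π` mapping the
generators `x_k` to the elements represented by `f_i(x_k)`; its image is then `P_i`) -/
def Represents (D : Deco) : Prop :=
  ∀ i : Ix D, (D.2.get i).2.length = (D.2.get i).1.1 ∧
    ∃ φ : Grp (D.2.get i).1 →* Gp D, Function.Injective φ ∧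
      ∀ (k : ℕ) (h : k < (D.2.get i).2.length),
        φ (elt (D.2.get i).1 [(k, true)]) = elt D.1 ((D.2.get i).2.get ⟨k, h⟩)

/-- `π` with the generators and their inverses and the peripheral subgroups `P_i` -/
def Rel (D : Deco) : RH (Ix D) (Gp D) where
  A := {g | ∃ k b, k < D.1.1 ∧ g = elt D.1 [(k, b)]}
  P := Per D

/-- Relative hyperbolicity, in the form of Dahmani-Guirardel-Osin: the relative Cayley graph is hyperbolic
(four point condition), and for every `i` and `n` only finitely many elements of `P_i` can be joined to `1`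
by a path of length at most `n` of the relative Cayley graph without `P_i`-edges inside `P_i`. -/
def RelHyp {ι G : Type} [Group G] (S : RH ι G) : Prop :=
  (∃ δ : ℕ, ∀ x y z t : G, S.rl (x⁻¹ * y) + S.rl (z⁻¹ * t) ≤
    max (S.rl (x⁻¹ * z) + S.rl (y⁻¹ * t)) (S.rl (x⁻¹ * t) + S.rl (y⁻¹ * z)) + δ) ∧
  ∀ i n, {p : G | p ∈ S.P i ∧
    ∃ w, S.Ok w ∧ S.NoE i 1 w ∧ w.length ≤ n ∧ ev w = p}.Finite

/-- the decorated group is in the class: relatively hyperbolic with abelian peripheral subgroups -/
def InClass (D : Deco) : Prop :=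
  RelHyp (Rel D) ∧ ∀ i : Ix D, ∀ x ∈ Per D i, ∀ y ∈ Per D i, x * y = y * x

/-- `⟨Y⟩` is relatively quasi-convex: geodesics of the relative Cayley graph between points of `⟨Y⟩` have
their vertices within distance `σ` of `⟨Y⟩` in the word metric -/
def RelQC (D : Deco) (Y : List Word) : Prop :=
  ∃ σ : ℕ, ∀ x ∈ sg D.1 Y, ∀ u, (Rel D).Geo u → x * ev u ∈ sg D.1 Y →
    ∀ u1 u2, u = u1 ++ u2 → ∃ h ∈ sg D.1 Y, (Rel D).wl (h⁻¹ * (x * ev u1)) ≤ σ

/-- inputs: a decorated presentation, the finite list `Y`, an index `i`, a word `w` -/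
abbrev Input := Deco × List Word × ℕ × Word

/-- the two conditions on inputs (and `i` is an index) -/
def Promise (x : Input) : Prop :=
  x.2.2.1 < x.1.2.length ∧ Represents x.1 ∧ InClass x.1 ∧ RelQC x.1 x.2.1

/-- the element of `w` lies in the double coset `P_i ⟨Y⟩` -/
def InCoset (x : Input) : Prop :=
  ∃ h : x.2.2.1 < x.1.2.length, ∃ p ∈ Per x.1 ⟨x.2.2.1, h⟩, ∃ q ∈ sg x.1.1 x.2.1,
    elt x.1.1 x.2.2.2 = p * q

/-- the instance of an input -/
def inst (x : Input) : Inst := (x.1.1, (x.1.2.getD x.2.2.1 default).2, x.2.1, x.2.2.2)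

theorem inst_prim : Primrec inst := by
  have h1 : Primrec (fun x : Input => x.1.1) := Primrec.fst.comp Primrec.fst
  have h2 : Primrec (fun x : Input => (x.1.2.getD x.2.2.1 default).2) :=
    Primrec.snd.comp ((Primrec.list_getD default).comp (Primrec.snd.comp Primrec.fst)
      (Primrec.fst.comp (Primrec.snd.comp Primrec.snd)))
  have h3 : Primrec (fun x : Input => x.2.1) := Primrec.fst.comp Primrec.snd
  have h4 : Primrec (fun x : Input => x.2.2.2) :=
    Primrec.snd.comp (Primrec.snd.comp Primrec.snd)
  exact h1.pair (h2.pair (h3.pair h4))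

theorem per_fg (D : Deco) (i : Ix D) : (Per D i).FG := by
  rw [Subgroup.fg_iff]
  refine ⟨{g | ∃ w ∈ (D.2.get i).2, g = elt D.1 w}, rfl, ?_⟩
  have : {g | ∃ w ∈ (D.2.get i).2, g = elt D.1 w} =
      (fun w => elt D.1 w) '' {w | w ∈ (D.2.get i).2} := by
    ext g
    constructor
    · rintro ⟨w, hw, rfl⟩; exact ⟨w, hw, rfl⟩
    · rintro ⟨w, hw, rfl⟩; exact ⟨w, hw, rfl⟩
  rw [this]
  exact (List.finite_toSet _).image _

theorem good (D : Deco) (h : InClass D) : (Rel D).Good where
  finA := by
    have : (Rel D).A ⊆ (fun q : ℕ × Bool => elt D.1 [q]) '' ((Set.Iio D.1.1) ×ˢ Set.univ) := by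
      rintro g ⟨k, b, hk, rfl⟩
      exact ⟨(k, b), ⟨hk, trivial⟩, rfl⟩
    exact ((Set.finite_Iio _).prod Set.finite_univ |>.image _).subset this
  symm := by
    rintro g ⟨k, b, hk, rfl⟩
    refine ⟨k, !b, hk, ?_⟩
    rw [← elt_winv]
    rfl
  gen := by
    rw [eq_top_iff]
    intro g _
    obtain ⟨x, rfl⟩ := QuotientGroup.mk_surjective g
    have key : ∀ x : FreeGroup (Fin D.1.1), PresentedGroup.mk (rels D.1) x ∈
        Subgroup.closure (Rel D).A := by
      intro x
      induction x using FreeGroup.induction_on with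
      | C1 => simp
      | of i =>
        apply Subgroup.subset_closure
        refine ⟨i.1, true, i.2, ?_⟩
        simp [elt, fr]
      | inv_of i hi => simpa using hi
      | mul x y hx hy => rw [map_mul]; exact Subgroup.mul_mem _ hx hy
    exact key x
  comm := h.2
  hyp := h.1.1
  proper := h.1.2

/-- **Q1 has a positive answer**: one algorithm decides, for all inputs satisfying the conditions, whether the
element of `w` lies in `P_i ⟨Y⟩`. -/
theorem result : ∃ f : Input →. Bool, Partrec f ∧
    ∀ x : Input, Promise x → ∃ b ∈ f x, (b = true ↔ InCoset x) := by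
  obtain ⟨f, hf, H⟩ := decide_mem inst inst_prim.to_comp
  refine ⟨f, hf, ?_⟩
  rintro x ⟨hi, _, hcl, σ, hqc⟩
  obtain ⟨D, Y, i, w⟩ := x
  simp only at hi hcl hqc
  have hget : D.2.getD i default = D.2.get ⟨i, hi⟩ := by
    simp [List.getD_eq_getElem?_getD, hi]
  have hmem : Mem (inst (D, Y, i, w)).1 (inst (D, Y, i, w)).2.1 (inst (D, Y, i, w)).2.2.1
      (inst (D, Y, i, w)).2.2.2 ↔ InCoset (D, Y, i, w) := by
    unfold InCoset Mem inst Per
    simp only [hget]
    constructor
    · rintro ⟨a, ha, b, hb, e⟩; exact ⟨hi, a, ha, b, hb, e⟩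
    · rintro ⟨_, a, ha, b, hb, e⟩; exact ⟨a, ha, b, hb, e⟩
  rw [← hmem]
  apply H
  intro hn
  apply exists_cert (Rel D) (good D hcl) (fun l hl => ⟨l.1, l.2, hl, rfl⟩) (per_fg D) ⟨i, hi⟩
    (P := D.1) (Fw := (inst (D, Y, i, w)).2.1) (Y := Y) (w := w) _ _ hn
  · show sg D.1 (D.2.get ⟨i, hi⟩).2 = sg D.1 (D.2.getD i default).2
    rw [hget]
  · refine ⟨σ, ?_⟩
    intro u hu hu' u1 u2 e
    have := hqc 1 (Subgroup.one_mem _) u hu (by simpa using hu') u1 u2 e
    simpa using this

end Pool.Agent.Results.MP_77fd2d_al.Decidable
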